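import Mathlib

/-!
# MP_c48ca6_an: uniformly sharp closed convex sets and polyhedrality
-/

namespace Pool.Agent.Results.MP_c48ca6_an.SharpSets

open Set Metric Module

universe u

variable {H : Type u} [NormedAddCommGroup H] [InnerProductSpace ℝ H]

/-- The normal cone of `A` at `x`. -/
def normalCone (A : Set H) (x : H) : Set H := {v | ∀ a ∈ A, inner ℝ (a - x) v ≤ 0}

/-- `A` is `α`-sharp with respect to `u`. -/
def SharpAt (A : Set H) (u : H) (α : ℝ) : Prop :=
  ∀ x ∈ A, u ∉ normalCone A x → α ≤ infDist u (normalCone A x)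

/-- One and the same `α > 0` works for every unit vector (the definition of the problem file). -/
def UniformlySharp (A : Set H) : Prop := ∃ α : ℝ, 0 < α ∧ ∀ u : H, ‖u‖ = 1 → SharpAt A u α

/-- For every unit vector there is an `α > 0`, which may depend on the vector. -/
def PointwiseSharp (A : Set H) : Prop := ∀ u : H, ‖u‖ = 1 → ∃ α : ℝ, 0 < α ∧ SharpAt A u α

/-- A polyhedral set: finitely many (at least one) closed half-space constraints. -/
def Polyhedral (A : Set H) : Prop :=
  ∃ (m : ℕ) (_ : 1 ≤ m) (a : Fin m → H) (b : Fin m → ℝ), A = {x | ∀ j, inner ℝ (a j) x ≤ b j}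

/-! ### Basic facts on normal cones -/

lemma zero_mem_normalCone (A : Set H) (x : H) : (0 : H) ∈ normalCone A x := by
  intro a _; simp

lemma smul_mem_normalCone {A : Set H} {x v : H} {t : ℝ} (ht : 0 ≤ t) (hv : v ∈ normalCone A x) :
    t • v ∈ normalCone A x := by
  intro a ha
  rw [inner_smul_right]
  exact mul_nonpos_of_nonneg_of_nonpos ht (hv a ha)

lemma isClosed_normalCone (A : Set H) (x : H) : IsClosed (normalCone A x) := by
  have : normalCone A x = ⋂ a ∈ A, {v | inner ℝ (a - x) v ≤ 0} := by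
    ext v; simp [normalCone]
  rw [this]
  refine isClosed_biInter fun a _ => ?_
  exact isClosed_le (by fun_prop) continuous_const

lemma sharpAt_iff {A : Set H} {u : H} {α : ℝ} :
    SharpAt A u α ↔ ∀ x ∈ A, ∀ v ∈ normalCone A x, ‖v - u‖ < α → u ∈ normalCone A x := by
  constructor
  · intro h x hx v hv hlt
    by_contra hu
    have h1 := h x hx hu
    have h2 := infDist_le_dist_of_mem (x := u) hv
    rw [dist_comm, dist_eq_norm] at h2
    linarith
  · intro h x hx hu
    rw [le_infDist ⟨0, zero_mem_normalCone A x⟩]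
    intro v hv
    by_contra hlt
    push Not at hlt
    rw [dist_comm, dist_eq_norm] at hlt
    exact hu (h x hx v hv hlt)

/-- metric projection onto a closed convex set -/
lemma exists_proj [CompleteSpace H] {A : Set H} (hne : A.Nonempty) (hc : IsClosed A)
    (hA : Convex ℝ A) (y : H) : ∃ p ∈ A, y - p ∈ normalCone A p := by
  obtain ⟨p, hp, h⟩ := exists_norm_eq_iInf_of_complete_convex hne hc.isComplete hA y
  refine ⟨p, hp, ?_⟩
  intro a ha
  rw [real_inner_comm]
  exact (norm_eq_iInf_iff_real_inner_le_zero hA hp).1 h a ha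

/-! ### The literal (uniform) notion -/

lemma uniformlySharp_univ : UniformlySharp (univ : Set H) := by
  refine ⟨1, one_pos, fun u hu => ?_⟩
  rw [sharpAt_iff]
  intro x _ v hv hlt
  have h0 : v = 0 := by
    have h := hv (x + v) (mem_univ _)
    rw [add_sub_cancel_left, real_inner_self_eq_norm_sq] at h
    have : ‖v‖ = 0 := by nlinarith [norm_nonneg v]
    exact norm_eq_zero.1 this
  rw [h0, zero_sub, norm_neg, hu] at hlt
  exact absurd hlt (lt_irrefl _)

lemma uniformlySharp_singleton (x : H) : UniformlySharp ({x} : Set H) := by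
  refine ⟨1, one_pos, fun u _ => ?_⟩
  rw [sharpAt_iff]
  intro y hy v _ _ a ha
  rw [mem_singleton_iff] at hy ha
  rw [hy, ha]; simp

/-- In dimension at least two the only uniformly sharp sets are the points and the whole space. -/
lemma uniform_classification [CompleteSpace H] (hdim : 1 < Module.rank ℝ H) {A : Set H}
    (hne : A.Nonempty) (hc : IsClosed A) (hA : Convex ℝ A) :
    UniformlySharp A ↔ (A = univ ∨ ∃ x, A = {x}) := by
  constructor
  swap
  · rintro (h | ⟨x, h⟩)
    · rw [h]; exact uniformlySharp_univ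
    · rw [h]; exact uniformlySharp_singleton x
  rintro ⟨α, hα, hs⟩
  have key : ∀ x ∈ A, sphere (0 : H) 1 ⊆ normalCone A x ∨
      sphere (0 : H) 1 ⊆ (normalCone A x)ᶜ := by
    intro x hx
    have hpre := isPreconnected_sphere hdim (0 : H) (1 : ℝ)
    rw [isPreconnected_iff_subset_of_disjoint] at hpre
    have ho1 : IsOpen {u : H | infDist u (normalCone A x) < α} :=
      isOpen_lt (continuous_infDist_pt _) continuous_const
    have ho2 : IsOpen (normalCone A x)ᶜ := (isClosed_normalCone A x).isOpen_compl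
    have hsh : ∀ u ∈ sphere (0 : H) 1, infDist u (normalCone A x) < α → u ∈ normalCone A x := by
      intro u hu hlt
      by_contra hn
      have := hs u (by simpa using hu) x hx hn
      linarith
    rcases hpre _ _ ho1 ho2 (by
        intro u hu
        by_cases hn : u ∈ normalCone A x
        · left
          show infDist u (normalCone A x) < α
          rw [infDist_zero_of_mem hn]; exact hα
        · right; exact hn) (by
        rw [eq_empty_iff_forall_notMem]
        rintro u ⟨hu, h1, h2⟩
        exact h2 (hsh u hu h1)) with h | h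
    · left
      intro u hu
      exact hsh u hu (h hu)
    · right; exact h
  by_cases hex : ∃ x ∈ A, sphere (0 : H) 1 ⊆ normalCone A x
  · obtain ⟨x, hx, hsub⟩ := hex
    right
    refine ⟨x, ?_⟩
    refine Subset.antisymm ?_ (by simpa using hx)
    intro a ha
    by_contra hne'
    have hax : a - x ≠ 0 := sub_ne_zero.2 hne'
    have hmem : (‖a - x‖⁻¹ • (a - x)) ∈ sphere (0 : H) 1 := by
      rw [mem_sphere_zero_iff_norm, norm_smul, norm_inv, norm_norm,
        inv_mul_cancel₀ (norm_ne_zero_iff.2 hax)]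
    have h := hsub hmem a ha
    rw [inner_smul_right, real_inner_self_eq_norm_sq] at h
    have hpos : 0 < ‖a - x‖ := norm_pos_iff.2 hax
    have : 0 < ‖a - x‖⁻¹ * ‖a - x‖ ^ 2 := by positivity
    linarith
  · left
    push Not at hex
    rw [eq_univ_iff_forall]
    intro y
    by_contra hy
    obtain ⟨p, hp, hyp⟩ := exists_proj hne hc hA y
    have hne' : y - p ≠ 0 := by
      intro h
      rw [sub_eq_zero] at h
      exact hy (h ▸ hp)
    rcases key p hp with h | h
    · exact hex p hp h
    · have hmem : (‖y - p‖⁻¹ • (y - p)) ∈ sphere (0 : H) 1 := by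
        rw [mem_sphere_zero_iff_norm, norm_smul, norm_inv, norm_norm,
          inv_mul_cancel₀ (norm_ne_zero_iff.2 hne')]
      exact h hmem (smul_mem_normalCone (by positivity) hyp)

/-! ### Polyhedral sets in infinite-dimensional spaces -/

/-- A bounded nonempty set cut out of an affine subspace by finitely many half-spaces lives in a
finite-dimensional affine subspace. -/
lemma finiteDimensional_direction_of_bounded {A : Set H} (hne : A.Nonempty)
    (hb : Bornology.IsBounded A) {M : AffineSubspace ℝ H} {m : ℕ} {a : Fin m → H} {b : Fin m → ℝ}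
    (hA : A = {x | x ∈ M ∧ ∀ j, inner ℝ (a j) x ≤ b j}) : FiniteDimensional ℝ M.direction := by
  obtain ⟨x0, hx0⟩ := hne
  obtain ⟨R, hR⟩ := hb.exists_norm_le
  let f : M.direction →ₗ[ℝ] (Fin m → ℝ) :=
    { toFun := fun w j => inner ℝ (a j) (w : H)
      map_add' := by intro w w'; ext j; simp [inner_add_right]
      map_smul' := by intro c w; ext j; simp [inner_smul_right] }
  refine FiniteDimensional.of_injective f ?_
  rw [← LinearMap.ker_eq_bot, LinearMap.ker_eq_bot']
  intro w hw
  have hw' : ∀ j, inner ℝ (a j) (w : H) = 0 := fun j => congrFun hw j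
  by_contra hw0
  have hwn : 0 < ‖(w : H)‖ := by
    rw [norm_pos_iff]
    intro h
    exact hw0 (Subtype.ext h)
  have hx0' := hx0
  rw [hA] at hx0'
  have hmem : ∀ t : ℝ, x0 + t • (w : H) ∈ A := by
    intro t
    rw [hA]
    refine ⟨?_, fun j => ?_⟩
    · have := AffineSubspace.vadd_mem_of_mem_direction
        (M.direction.smul_mem t w.2) hx0'.1
      rwa [vadd_eq_add, add_comm] at this
    · rw [inner_add_right, inner_smul_right, hw' j, mul_zero, add_zero]
      exact hx0'.2 j
  have h1 := hR _ (hmem ((R + ‖x0‖ + 1) / ‖(w : H)‖))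
  have hR0 : 0 ≤ R := le_trans (norm_nonneg _) (hR _ hx0)
  have h2 : ‖((R + ‖x0‖ + 1) / ‖(w : H)‖) • (w : H)‖ = R + ‖x0‖ + 1 := by
    rw [norm_smul, Real.norm_of_nonneg (by positivity)]
    field_simp
  have h3 : ‖((R + ‖x0‖ + 1) / ‖(w : H)‖) • (w : H)‖ ≤
      ‖x0 + ((R + ‖x0‖ + 1) / ‖(w : H)‖) • (w : H)‖ + ‖x0‖ := by
    have := norm_sub_le (x0 + ((R + ‖x0‖ + 1) / ‖(w : H)‖) • (w : H)) x0
    rwa [add_sub_cancel_left] at this
  linarith

lemma not_polyhedral_of_bounded (hinf : ¬ FiniteDimensional ℝ H) {A : Set H} (hne : A.Nonempty)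
    (hb : Bornology.IsBounded A) : ¬ Polyhedral A := by
  rintro ⟨m, _, a, b, hA⟩
  have h : FiniteDimensional ℝ (⊤ : AffineSubspace ℝ H).direction :=
    finiteDimensional_direction_of_bounded (a := a) (b := b) hne hb (by
      rw [hA]; ext x; simp)
  rw [AffineSubspace.direction_top] at h
  exact hinf (Module.finite_def.2 ((Submodule.fg_top _).1 (by
    have := (Module.finite_def.1 h)
    exact (Submodule.fg_top _).2 (by
      rw [Submodule.fg_top] at this
      exact this))))

/-! ### Faces and the pointwise notion -/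

/-- A convenient form of the pointwise notion, for all vectors (including `0`). -/
def PSharp (A : Set H) : Prop :=
  ∀ u : H, ∃ α : ℝ, 0 < α ∧ ∀ x ∈ A, ∀ v ∈ normalCone A x, ‖v - u‖ < α → u ∈ normalCone A x

lemma pSharp_of_pointwise {A : Set H} (h : PointwiseSharp A) : PSharp A := by
  intro u
  by_cases hu : u = 0
  · exact ⟨1, one_pos, fun x _ v _ _ => hu ▸ zero_mem_normalCone A x⟩
  · have hpos : 0 < ‖u‖ := norm_pos_iff.2 hu
    obtain ⟨α, hα, hs⟩ := h (‖u‖⁻¹ • u) (by
      rw [norm_smul, norm_inv, norm_norm, inv_mul_cancel₀ hpos.ne'])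
    rw [sharpAt_iff] at hs
    refine ⟨‖u‖ * α, by positivity, fun x hx v hv hlt => ?_⟩
    have h1 := hs x hx (‖u‖⁻¹ • v) (smul_mem_normalCone (by positivity) hv) (by
      rw [← smul_sub, norm_smul, norm_inv, norm_norm, inv_mul_lt_iff₀ hpos]
      exact hlt)
    have h2 := smul_mem_normalCone hpos.le h1
    rwa [smul_smul, mul_inv_cancel₀ hpos.ne', one_smul] at h2

/-- The exposed face of `A` in direction `u`. -/
def F (A : Set H) (u : H) : Set H := {x | x ∈ A ∧ u ∈ normalCone A x}

lemma F_subset (A : Set H) (u : H) : F A u ⊆ A := fun _ hx => hx.1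

lemma inner_eq_of_mem_F {A : Set H} {u x y : H} (hx : x ∈ F A u) (hy : y ∈ F A u) :
    inner ℝ (y - x) u = 0 := by
  have h1 := hx.2 y hy.1
  have h2 := hy.2 x hx.1
  have h3 : inner ℝ (x - y) u = - inner ℝ (y - x) u := by
    rw [← inner_neg_left, neg_sub]
  linarith

lemma isClosed_F {A : Set H} (hc : IsClosed A) (u : H) : IsClosed (F A u) := by
  have : F A u = A ∩ ⋂ a ∈ A, {x | inner ℝ (a - x) u ≤ 0} := by
    ext v; simp [normalCone, F]
  rw [this]
  refine hc.inter (isClosed_biInter fun a _ => ?_)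
  exact isClosed_le (by fun_prop) continuous_const

lemma convex_F {A : Set H} (hA : Convex ℝ A) (u : H) : Convex ℝ (F A u) := by
  intro x hx y hy s t hs ht hst
  refine ⟨hA hx.1 hy.1 hs ht hst, fun a ha => ?_⟩
  have h1 := hx.2 a ha
  have h2 := hy.2 a ha
  have : a - (s • x + t • y) = s • (a - x) + t • (a - y) := by
    rw [smul_sub, smul_sub, ← sub_eq_zero]
    have : a = (s + t) • a := by rw [hst, one_smul]
    nth_rewrite 1 [this]
    module
  rw [this, inner_add_left, inner_smul_left, inner_smul_left]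
  simp only [conj_trivial]
  nlinarith

/-- The key lemma: near `u`, the normal cone of `A` is the normal cone of the face. -/
lemma normalCone_face [CompleteSpace H] {A : Set H} (hc : IsClosed A)
    (hA : Convex ℝ A) {u x w : H} {α : ℝ} (hx : x ∈ F A u)
    (hs : ∀ y ∈ A, ∀ v ∈ normalCone A y, ‖v - u‖ < α → u ∈ normalCone A y)
    (hw : w ∈ normalCone (F A u) x) (hwα : 2 * ‖w‖ < α) : u + w ∈ normalCone A x := by
  obtain ⟨y, hy, hyn⟩ := exists_proj ⟨x, hx.1⟩ hc hA (x + (u + w))
  have e1 : x + (u + w) - y = (x - y) + u + w := by abel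
  rw [e1] at hyn
  have h1 : ‖x - y‖ ^ 2 + inner ℝ (x - y) u + inner ℝ (x - y) w ≤ 0 := by
    have := hyn x hx.1
    rwa [inner_add_right, inner_add_right, real_inner_self_eq_norm_sq] at this
  have h2 : 0 ≤ inner ℝ (x - y) u := by
    have := hx.2 y hy
    have h3 : inner ℝ (x - y) u = - inner ℝ (y - x) u := by rw [← inner_neg_left, neg_sub]
    linarith
  have h3 : |inner ℝ (x - y) w| ≤ ‖x - y‖ * ‖w‖ := abs_real_inner_le_norm _ _
  have h4 : ‖x - y‖ ≤ ‖w‖ := by
    have h5 := neg_abs_le (inner ℝ (x - y) w)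
    by_contra hlt
    push Not at hlt
    have : ‖x - y‖ * ‖w‖ < ‖x - y‖ * ‖x - y‖ :=
      mul_lt_mul_of_pos_left hlt (lt_of_le_of_lt (norm_nonneg _) hlt)
    nlinarith
  have h5 : u ∈ normalCone A y := by
    refine hs y hy _ hyn ?_
    have e2 : x - y + u + w - u = (x - y) + w := by abel
    rw [e2]
    have := norm_add_le (x - y) w
    linarith
  have h6 : inner ℝ (y - x) w ≤ 0 := hw y ⟨hy, h5⟩
  have h7 : inner ℝ (x - y) w = - inner ℝ (y - x) w := by rw [← inner_neg_left, neg_sub]
  have h8 : ‖x - y‖ = 0 := by nlinarith [norm_nonneg (x - y)]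
  have h9 : x = y := sub_eq_zero.1 (norm_eq_zero.1 h8)
  rw [← h9, sub_self, zero_add] at hyn
  exact hyn

lemma pSharp_face [CompleteSpace H] {A : Set H} (hc : IsClosed A) (hA : Convex ℝ A)
    (h : PSharp A) (u : H) : PSharp (F A u) := by
  intro w
  obtain ⟨α, hα, hs⟩ := h u
  set ε : ℝ := α / (4 * (‖w‖ + 1)) with hε
  have hεpos : 0 < ε := by positivity
  obtain ⟨γ, hγ, hs'⟩ := h (u + ε • w)
  refine ⟨min 1 (γ / ε), lt_min one_pos (by positivity), fun x hx w' hw' hlt => ?_⟩
  have hlt1 : ‖w' - w‖ < 1 := lt_of_lt_of_le hlt (min_le_left _ _)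
  have hlt2 : ‖w' - w‖ < γ / ε := lt_of_lt_of_le hlt (min_le_right _ _)
  have hn : ‖w'‖ ≤ ‖w‖ + 1 := by
    have := norm_sub_norm_le w' w
    linarith
  have hm : u + ε • w' ∈ normalCone A x := by
    refine normalCone_face hc hA hx hs (smul_mem_normalCone hεpos.le hw') ?_
    rw [norm_smul, Real.norm_of_nonneg hεpos.le]
    have : ε * ‖w'‖ ≤ ε * (‖w‖ + 1) := by gcongr
    have h2 : ε * (‖w‖ + 1) = α / 4 := by rw [hε]; field_simp
    linarith
  have hm2 : u + ε • w ∈ normalCone A x := by
    refine hs' x hx.1 _ hm ?_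
    have e1 : u + ε • w' - (u + ε • w) = ε • (w' - w) := by module
    rw [e1, norm_smul, Real.norm_of_nonneg hεpos.le]
    rw [lt_div_iff₀ hεpos] at hlt2
    linarith
  intro y hy
  have h1 := hm2 y hy.1
  rw [inner_add_right, inner_smul_right, inner_eq_of_mem_F hx hy, zero_add] at h1
  by_contra hcon
  push Not at hcon
  have := mul_pos hεpos hcon
  linarith

lemma F_of_mem_near {A : Set H} {u v : H} {α : ℝ}
    (hs : ∀ y ∈ A, ∀ v ∈ normalCone A y, ‖v - u‖ < α → u ∈ normalCone A y)
    (hv : ‖v - u‖ < α) (hne : (F A v).Nonempty) : F A v = F (F A u) v := by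
  have hsub : F A v ⊆ F A u := fun x hx => ⟨hx.1, hs x hx.1 v hx.2 hv⟩
  obtain ⟨x0, hx0⟩ := hne
  apply Subset.antisymm
  · intro x hx
    exact ⟨hsub hx, fun a ha => hx.2 a ha.1⟩
  · intro x hx
    refine ⟨hx.1.1, fun a ha => ?_⟩
    have h1 := hx.2 x0 (hsub hx0)
    have h2 := hx0.2 a ha
    have : a - x = (a - x0) + (x0 - x) := by abel
    rw [this, inner_add_left]
    linarith

lemma inner_eq_zero_of_orth {A : Set H} {q a x : H} (hq : q ∈ (vectorSpan ℝ A)ᗮ) (ha : a ∈ A)
    (hx : x ∈ A) : inner ℝ (a - x) q = 0 :=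
  (Submodule.mem_orthogonal _ _).1 hq _ (vsub_mem_vectorSpan ℝ ha hx)

lemma F_add_orth {A : Set H} {p q : H} (hq : q ∈ (vectorSpan ℝ A)ᗮ) : F A (p + q) = F A p := by
  ext x
  constructor
  · rintro ⟨hx, h⟩
    refine ⟨hx, fun a ha => ?_⟩
    have := h a ha
    rwa [inner_add_right, inner_eq_zero_of_orth hq ha hx, add_zero] at this
  · rintro ⟨hx, h⟩
    refine ⟨hx, fun a ha => ?_⟩
    rw [inner_add_right, inner_eq_zero_of_orth hq ha hx, add_zero]
    exact h a ha

lemma F_smul {A : Set H} {p : H} {t : ℝ} (ht : 0 < t) : F A (t • p) = F A p := by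
  ext x
  constructor
  · rintro ⟨hx, h⟩
    refine ⟨hx, ?_⟩
    have := smul_mem_normalCone (inv_pos.2 ht).le h
    rwa [smul_smul, inv_mul_cancel₀ ht.ne', one_smul] at this
  · rintro ⟨hx, h⟩
    exact ⟨hx, smul_mem_normalCone ht.le h⟩

lemma F_zero (A : Set H) : F A 0 = A :=
  Subset.antisymm (F_subset A 0) fun x hx => ⟨hx, zero_mem_normalCone A x⟩

/-- A pointwise sharp closed convex set in a finite-dimensional space has finitely many exposed
faces. -/
lemma finite_faces [FiniteDimensional ℝ H] : ∀ (n : ℕ) (A : Set H),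
    finrank ℝ (vectorSpan ℝ A) = n → IsClosed A → Convex ℝ A → PSharp A →
    (range (F A)).Finite := by
  intro n
  induction n using Nat.strong_induction_on with
  | _ n ih =>
  intro A hn hc hA hS
  set L := vectorSpan ℝ A with hL
  have hcomp : IsCompact ({u : H | u ∈ L} ∩ sphere (0 : H) 1) :=
    (isCompact_sphere (0 : H) 1).inter_left (Submodule.closed_of_finiteDimensional L)
  choose α hα hs using hS
  obtain ⟨T, hT, hcov⟩ := hcomp.elim_nhds_subcover (fun u => ball u (α u))
    (fun u _ => ball_mem_nhds u (hα u))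
  have hfin : ∀ u ∈ T, (range (F (F A u))).Finite := by
    intro u hu
    have huT := hT u hu
    have hlt : finrank ℝ (vectorSpan ℝ (F A u)) < n := by
      rw [← hn]
      apply Submodule.finrank_lt_finrank_of_lt
      refine lt_of_le_of_ne (vectorSpan_mono ℝ (F_subset A u)) ?_
      intro heq
      have hmem : u ∈ vectorSpan ℝ (F A u) := by rw [heq]; exact huT.1
      have hle : vectorSpan ℝ (F A u) ≤ (Submodule.span ℝ {u})ᗮ := by
        rw [vectorSpan_def, Submodule.span_le]
        rintro _ ⟨y, hy, x, hx, rfl⟩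
        show y - x ∈ (Submodule.span ℝ {u})ᗮ
        rw [Submodule.mem_orthogonal_singleton_iff_inner_left]
        exact inner_eq_of_mem_F hx hy
      have h0 := Submodule.mem_orthogonal_singleton_iff_inner_left.1 (hle hmem)
      rw [real_inner_self_eq_norm_sq] at h0
      have h1 : ‖u‖ = 1 := by simpa using huT.2
      rw [h1] at h0
      norm_num at h0
    exact ih _ hlt (F A u) rfl (isClosed_F hc u) (convex_F hA u)
      (pSharp_face hc hA (fun u => ⟨α u, hα u, hs u⟩) u)
  refine Set.Finite.subset (((finite_singleton A).union (finite_singleton ∅)).union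
    (T.finite_toSet.biUnion (t := fun u => range (F (F A u))) hfin)) ?_
  rintro _ ⟨v, rfl⟩
  obtain ⟨p, hp, q, hq, rfl⟩ := L.exists_add_mem_mem_orthogonal v
  rw [F_add_orth hq]
  by_cases hp0 : p = 0
  · left; left
    rw [hp0, F_zero]; rfl
  have hppos : 0 < ‖p‖ := norm_pos_iff.2 hp0
  have hF : F A p = F A (‖p‖⁻¹ • p) := (F_smul (inv_pos.2 hppos)).symm
  rw [hF]
  set p' := ‖p‖⁻¹ • p with hp'
  have hp'mem : p' ∈ ({u : H | u ∈ L} ∩ sphere (0 : H) 1) := by
    refine ⟨L.smul_mem _ hp, ?_⟩
    rw [mem_sphere_zero_iff_norm, hp', norm_smul, norm_inv, norm_norm,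
      inv_mul_cancel₀ hppos.ne']
  by_cases hne : (F A p').Nonempty
  · right
    obtain ⟨u, hu, hpu⟩ := mem_iUnion₂.1 (hcov hp'mem)
    rw [mem_iUnion₂]
    refine ⟨u, hu, p', ?_⟩
    rw [mem_ball, dist_eq_norm] at hpu
    exact (F_of_mem_near (hs u) hpu hne).symm
  · left; right
    rw [not_nonempty_iff_eq_empty] at hne
    exact hne


/-- Conversion from finitely many constraints to the indexed form. -/
lemma polyhedral_of_finite {A : Set H} {S : Set (H × ℝ)} (hS : S.Finite)
    (hA : A = {x | ∀ p ∈ S, inner ℝ p.1 x ≤ p.2}) : Polyhedral A := by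
  classical
  set T : Finset (H × ℝ) := insert ((0 : H), (0 : ℝ)) hS.toFinset with hT
  let e := T.equivFin
  refine ⟨T.card, Finset.card_pos.2 ⟨_, Finset.mem_insert_self _ _⟩,
    fun j => (e.symm j : H × ℝ).1, fun j => (e.symm j : H × ℝ).2, ?_⟩
  rw [hA]
  ext x
  constructor
  · intro h j
    have hm : (e.symm j : H × ℝ) = (0, 0) ∨ (e.symm j : H × ℝ) ∈ hS.toFinset :=
      Finset.mem_insert.1 (hT ▸ (e.symm j).2 : (e.symm j : H × ℝ) ∈ insert _ _)
    rcases hm with hm | hm
    · have h1 : ((e.symm j : H × ℝ)).1 = 0 := by rw [hm]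
      have h2 : ((e.symm j : H × ℝ)).2 = 0 := by rw [hm]
      show inner ℝ ((e.symm j : H × ℝ)).1 x ≤ ((e.symm j : H × ℝ)).2
      rw [h1, h2, inner_zero_left]
    · exact h _ (hS.mem_toFinset.1 hm)
  · intro h p hp
    have hm : p ∈ T := by
      rw [hT, Finset.mem_insert]; right; exact hS.mem_toFinset.2 hp
    have := h (e ⟨p, hm⟩)
    simpa using this

/-- In finite-dimensional spaces pointwise sharpness implies polyhedrality. -/
lemma polyhedral_of_pSharp [FiniteDimensional ℝ H] {A : Set H} (hne : A.Nonempty)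
    (hc : IsClosed A) (hA : Convex ℝ A) (hS : PSharp A) : Polyhedral A := by
  classical
  set L := vectorSpan ℝ A with hL
  have hfin : (range (F A)).Finite := finite_faces _ A rfl hc hA hS
  -- the proper nonempty exposed faces, with chosen normals
  set T : Set (Set H) := {G | ∃ u ∈ L, u ≠ 0 ∧ F A u = G ∧ G.Nonempty} with hT
  have hTfin : T.Finite := by
    refine hfin.subset ?_
    rintro G ⟨u, _, _, rfl, _⟩
    exact ⟨u, rfl⟩
  have hproper : ∀ G ∈ T, ∃ z ∈ A, z ∉ G := by
    rintro G ⟨u, huL, hu0, rfl, _⟩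
    by_contra hcon
    push Not at hcon
    have hle : L ≤ (Submodule.span ℝ {u})ᗮ := by
      rw [hL, vectorSpan_def, Submodule.span_le]
      rintro _ ⟨y, hy, x, hx, rfl⟩
      show y - x ∈ (Submodule.span ℝ {u})ᗮ
      rw [Submodule.mem_orthogonal_singleton_iff_inner_left]
      exact inner_eq_of_mem_F (hcon x hx) (hcon y hy)
    have h0 := Submodule.mem_orthogonal_singleton_iff_inner_left.1 (hle huL)
    exact hu0 (inner_self_eq_zero.1 h0)
  choose! nrm hnL hn0 hnF hnN using (fun G (hG : G ∈ T) => hG)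
  choose! zz hzA hzG using hproper
  choose! gg hgg using (fun G (hG : G ∈ T) => hnN G hG)
  -- a point of `A` outside all proper faces
  obtain ⟨z, hz, hzstrict⟩ : ∃ z ∈ A, ∀ G ∈ T, inner ℝ (z - gg G) (nrm G) < 0 := by
    have hle : ∀ G ∈ T, ∀ a ∈ A, inner ℝ (a - gg G) (nrm G) ≤ 0 := by
      intro G hG a ha
      exact ((hnF G hG).ge (hgg G hG)).2 a ha
    have hlt : ∀ G ∈ T, inner ℝ (zz G - gg G) (nrm G) < 0 := by
      intro G hG
      refine lt_of_le_of_ne (hle G hG _ (hzA G hG)) ?_
      intro heq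
      apply hzG G hG
      refine (hnF G hG).le ⟨hzA G hG, fun a ha => ?_⟩
      have h1 := hle G hG a ha
      have : a - zz G = (a - gg G) - (zz G - gg G) := by abel
      rw [this, inner_sub_left, heq]
      linarith
    by_cases hTe : T.Nonempty
    · set TT := hTfin.toFinset with hTT
      have hcard : 0 < (TT.card : ℝ) := by
        rw [Nat.cast_pos, Finset.card_pos]
        exact hTfin.toFinset_nonempty.2 hTe
      refine ⟨∑ G ∈ TT, (1 / (TT.card : ℝ)) • zz G, ?_, ?_⟩
      · refine hA.sum_mem (fun G _ => by positivity) ?_ (fun G hG => hzA G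
          (hTfin.mem_toFinset.1 hG))
        rw [Finset.sum_const, nsmul_eq_mul]
        field_simp
      · intro G hG
        have e1 : (∑ G' ∈ TT, (1 / (TT.card : ℝ)) • zz G') - gg G =
            ∑ G' ∈ TT, (1 / (TT.card : ℝ)) • (zz G' - gg G) := by
          simp_rw [smul_sub]
          rw [Finset.sum_sub_distrib, Finset.sum_const, ← Nat.cast_smul_eq_nsmul ℝ, smul_smul]
          have : (TT.card : ℝ) * (1 / (TT.card : ℝ)) = 1 := by field_simp
          rw [this, one_smul]
        rw [e1, sum_inner]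
        rw [← Finset.sum_const_zero (s := TT)]
        refine Finset.sum_lt_sum ?_ ⟨G, hTfin.mem_toFinset.2 hG, ?_⟩
        · intro G' hG'
          rw [real_inner_smul_left]
          exact mul_nonpos_of_nonneg_of_nonpos (one_div_pos.2 hcard).le
            (hle G hG _ (hzA G' (hTfin.mem_toFinset.1 hG')))
        · rw [real_inner_smul_left]
          exact mul_neg_of_pos_of_neg (one_div_pos.2 hcard) (hlt G hG)
    · obtain ⟨z, hz⟩ := hne
      refine ⟨z, hz, fun G hG => absurd ⟨G, hG⟩ hTe⟩
  -- points of `A` outside all faces of `T` are relatively interior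
  have hrel : ∀ x ∈ A, (∀ G ∈ T, x ∉ G) → ∃ δ > 0, ∀ y : H, y - z ∈ L → ‖y - x‖ < δ → y ∈ A := by
    intro x hx hxG
    have hcl : IsClosed (⋃ G ∈ T, G) := by
      refine hTfin.isClosed_biUnion ?_
      rintro G ⟨u, _, _, rfl, _⟩
      exact isClosed_F hc u
    have hxU : x ∈ (⋃ G ∈ T, G)ᶜ := by
      intro h
      obtain ⟨G, hG, hxG'⟩ := mem_iUnion₂.1 h
      exact hxG G hG hxG'
    obtain ⟨δ, hδ, hball⟩ := Metric.isOpen_iff.1 hcl.isOpen_compl x hxU
    refine ⟨δ / 2, by positivity, fun y hyL hy => ?_⟩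
    by_contra hyA
    obtain ⟨p, hp, hyp⟩ := exists_proj hne hc hA y
    have hvne : y - p ≠ 0 := by
      intro h
      rw [sub_eq_zero] at h
      exact hyA (h ▸ hp)
    have hvL : y - p ∈ L := by
      have h1 : z - p ∈ L := vsub_mem_vectorSpan ℝ hz hp
      have h2 := L.add_mem hyL h1
      have e1 : y - z + (z - p) = y - p := by abel
      rwa [e1] at h2
    have hpG : p ∈ F A (y - p) := ⟨hp, hyp⟩
    have hmem : F A (y - p) ∈ T := ⟨y - p, hvL, hvne, rfl, ⟨p, hpG⟩⟩
    have hdist : ‖y - p‖ ≤ ‖y - x‖ := by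
      have h1 := hyp x hx
      have h2 : ‖y - p‖ ^ 2 ≤ inner ℝ (y - x) (y - p) := by
        have e1 : y - p = (y - x) + (x - p) := by abel
        calc ‖y - p‖ ^ 2 = inner ℝ (y - p) (y - p) := (real_inner_self_eq_norm_sq _).symm
          _ = inner ℝ (y - x) (y - p) + inner ℝ (x - p) (y - p) := by
              nth_rewrite 1 [e1]; rw [inner_add_left]
          _ ≤ _ := by linarith
      have h3 := real_inner_le_norm (y - x) (y - p)
      have h4 : 0 < ‖y - p‖ := norm_pos_iff.2 hvne
      by_contra hcon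
      push Not at hcon
      nlinarith
    have hpx : p ∈ ball x δ := by
      rw [mem_ball, dist_eq_norm]
      have e1 : p - x = (y - x) - (y - p) := by abel
      rw [e1]
      have := norm_sub_le (y - x) (y - p)
      linarith
    exact hball hpx (mem_iUnion₂.2 ⟨_, hmem, hpG⟩)
  -- the constraints
  obtain ⟨t, ht⟩ : ∃ t : Finset H, Submodule.span ℝ (t : Set H) = Lᗮ :=
    IsNoetherian.noetherian Lᗮ
  set S : Set (H × ℝ) :=
    ((fun G => (nrm G, inner ℝ (nrm G) (gg G))) '' T) ∪
    (((fun e => (e, inner ℝ e z)) '' (t : Set H)) ∪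
      ((fun e => (-e, inner ℝ (-e) z)) '' (t : Set H))) with hSdef
  have hSfin : S.Finite :=
    (hTfin.image _).union ((t.finite_toSet.image _).union (t.finite_toSet.image _))
  refine polyhedral_of_finite hSfin ?_
  apply Subset.antisymm
  · intro x hx p hp
    rw [hSdef] at hp
    rcases hp with ⟨G, hG, rfl⟩ | ⟨e, he, rfl⟩ | ⟨e, he, rfl⟩
    · have h1 := ((hnF G hG).ge (hgg G hG)).2 x hx
      rw [inner_sub_left] at h1
      show inner ℝ (nrm G) x ≤ inner ℝ (nrm G) (gg G)
      rw [real_inner_comm, real_inner_comm (gg G)]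
      linarith
    · have he' : e ∈ Lᗮ := by rw [← ht]; exact Submodule.subset_span he
      have h1 := inner_eq_zero_of_orth he' hx hz
      rw [inner_sub_left] at h1
      show inner ℝ e x ≤ inner ℝ e z
      rw [real_inner_comm, real_inner_comm z]
      linarith
    · have he' : e ∈ Lᗮ := by rw [← ht]; exact Submodule.subset_span he
      have h1 := inner_eq_zero_of_orth he' hx hz
      rw [inner_sub_left] at h1
      show inner ℝ (-e) x ≤ inner ℝ (-e) z
      rw [inner_neg_left, inner_neg_left, real_inner_comm, real_inner_comm z]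
      linarith
  · intro y hy
    have hyT : ∀ G ∈ T, inner ℝ (y - gg G) (nrm G) ≤ 0 := by
      intro G hG
      have := hy (nrm G, inner ℝ (nrm G) (gg G)) (Or.inl ⟨G, hG, rfl⟩)
      simp only at this
      rw [inner_sub_left, real_inner_comm (nrm G) y, real_inner_comm (nrm G) (gg G)]
      linarith
    have hyL : y - z ∈ L := by
      have h1 : ∀ e ∈ t, inner ℝ e (y - z) = 0 := by
        intro e he
        have h2 := hy (e, inner ℝ e z) (Or.inr (Or.inl ⟨e, he, rfl⟩))
        have h3 := hy (-e, inner ℝ (-e) z) (Or.inr (Or.inr ⟨e, he, rfl⟩))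
        simp only [inner_neg_left] at h2 h3
        rw [inner_sub_right]
        linarith
      have h2 : Lᗮ ≤ (Submodule.span ℝ {y - z})ᗮ := by
        rw [← ht, Submodule.span_le]
        intro e he
        show e ∈ (Submodule.span ℝ {y - z})ᗮ
        rw [Submodule.mem_orthogonal_singleton_iff_inner_left]
        exact h1 e he
      have h3 : y - z ∈ Lᗮᗮ := by
        rw [Submodule.mem_orthogonal]
        intro u hu
        exact Submodule.mem_orthogonal_singleton_iff_inner_left.1 (h2 hu)
      rwa [Submodule.orthogonal_orthogonal] at h3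
    -- continuous induction along the segment
    set s : Set ℝ := {r | z + r • (y - z) ∈ A} with hs
    have hscl : IsClosed s := hc.preimage (by fun_prop)
    have h0 : (0 : ℝ) ∈ s := by simp [hs, hz]
    have hind : Icc (0 : ℝ) 1 ⊆ s := by
      refine IsClosed.Icc_subset_of_forall_mem_nhdsWithin (hscl.inter isClosed_Icc) h0 ?_
      rintro r ⟨hr, hr0, hr1⟩
      have hstrict : ∀ G ∈ T, z + r • (y - z) ∉ G := by
        intro G hG hmem
        have h1 := hzstrict G hG
        have h2 := hyT G hG
        have h3 : inner ℝ (z + r • (y - z) - gg G) (nrm G) = 0 := by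
          exact inner_eq_of_mem_F ((hnF G hG).ge (hgg G hG)) ((hnF G hG).ge hmem)
        have e1 : z + r • (y - z) - gg G = (1 - r) • (z - gg G) + r • (y - gg G) := by module
        rw [e1, inner_add_left, inner_smul_left, inner_smul_left] at h3
        simp only [conj_trivial] at h3
        nlinarith
      obtain ⟨δ, hδ, hball⟩ := hrel _ hr hstrict
      have hcont : Continuous fun r' : ℝ => z + r' • (y - z) := by fun_prop
      have hn : {r' : ℝ | ‖(z + r' • (y - z)) - (z + r • (y - z))‖ < δ} ∈ nhds r := by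
        refine (isOpen_lt (by fun_prop) continuous_const).mem_nhds ?_
        show ‖(z + r • (y - z)) - (z + r • (y - z))‖ < δ
        rw [sub_self, norm_zero]; exact hδ
      refine mem_nhdsWithin_of_mem_nhds (Filter.mem_of_superset hn ?_)
      intro r' hr'
      refine hball _ ?_ hr'
      rw [add_sub_cancel_left]
      exact L.smul_mem _ hyL
    have h1 := hind (right_mem_Icc.2 zero_le_one)
    have h2 : z + (1 : ℝ) • (y - z) ∈ A := h1
    rwa [one_smul, add_sub_cancel] at h2

/-! ### A compact non-polyhedral pointwise sharp set in every infinite-dimensional space -/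

/-- The gap criterion: if the values of `⟨u, ·⟩` on a subset `K` of the unit ball have an attained
maximum isolated from the other values, then the closed convex hull of `K` is sharp at `u`. -/
lemma sharp_of_gap {K : Set H} (hK : ∀ y ∈ K, ‖y‖ ≤ 1) {u : H} {s g : ℝ} (hg : 0 < g)
    (hy0 : ∃ y ∈ K, inner ℝ y u = s) (hgap : ∀ y ∈ K, inner ℝ y u = s ∨ inner ℝ y u ≤ s - g)
    {x v : H} (hx : x ∈ closure (convexHull ℝ K))
    (hv : v ∈ normalCone (closure (convexHull ℝ K)) x) (hlt : ‖v - u‖ < g / 4) :
    u ∈ normalCone (closure (convexHull ℝ K)) x := by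
  have hKA : K ⊆ closure (convexHull ℝ K) := (subset_convexHull ℝ K).trans subset_closure
  -- a closed half-space containing `K` contains the hull
  have hull : ∀ (c : H) (r : ℝ), (∀ y ∈ K, inner ℝ y c ≤ r) →
      ∀ y ∈ closure (convexHull ℝ K), inner ℝ y c ≤ r := by
    intro c r h
    have hcl : IsClosed {y : H | inner ℝ y c ≤ r} := isClosed_le (by fun_prop) continuous_const
    have hcv : Convex ℝ {y : H | inner ℝ y c ≤ r} := by
      intro y hy z hz a b ha hb hab
      show inner ℝ (a • y + b • z) c ≤ r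
      rw [inner_add_left, real_inner_smul_left, real_inner_smul_left]
      have h1 : inner ℝ y c ≤ r := hy
      have h2 : inner ℝ z c ≤ r := hz
      have h3 : a * inner ℝ y c ≤ a * r := by gcongr
      have h4 : b * inner ℝ z c ≤ b * r := by gcongr
      calc a * inner ℝ y c + b * inner ℝ z c ≤ a * r + b * r := by linarith
        _ = r := by rw [← add_mul, hab, one_mul]
    exact closure_minimal (convexHull_min h hcv) hcl
  obtain ⟨y0, hy0K, hy0s⟩ := hy0
  set M : ℝ := inner ℝ x v with hM
  have hMle : ∀ y ∈ closure (convexHull ℝ K), inner ℝ y v ≤ M := by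
    intro y hy
    have := hv y hy
    rw [inner_sub_left] at this
    linarith
  have hpert : ∀ y ∈ K, |inner ℝ y (v - u)| < g / 4 := by
    intro y hy
    calc |inner ℝ y (v - u)| ≤ ‖y‖ * ‖v - u‖ := abs_real_inner_le_norm _ _
      _ ≤ 1 * ‖v - u‖ := by gcongr; exact hK y hy
      _ < g / 4 := by rw [one_mul]; exact hlt
  have hMlow : s - g / 4 ≤ M := by
    have h1 := hMle y0 (hKA hy0K)
    have h2 := hpert y0 hy0K
    have h3 := neg_abs_le (inner ℝ y0 (v - u))
    rw [inner_sub_right] at h2 h3
    linarith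
  have hkey : ∀ y ∈ K, inner ℝ y (v - (1 / 2 : ℝ) • u) ≤ M - s / 2 := by
    intro y hy
    rw [inner_sub_right, real_inner_smul_right]
    rcases hgap y hy with h | h
    · have := hMle y (hKA hy)
      rw [h]; linarith
    · have h2 := hpert y hy
      have h3 := le_abs_self (inner ℝ y (v - u))
      rw [inner_sub_right] at h2 h3
      linarith
  have hxs : s ≤ inner ℝ x u := by
    have := hull _ _ hkey x hx
    rw [inner_sub_right, real_inner_smul_right] at this
    linarith
  have hus : ∀ y ∈ closure (convexHull ℝ K), inner ℝ y u ≤ s := by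
    refine hull u s fun y hy => ?_
    rcases hgap y hy with h | h <;> linarith
  intro a ha
  rw [inner_sub_left]
  linarith [hus a ha]

/-- A null sequence of nonnegative reals with a positive term has an attained and isolated
maximum. -/
lemma exists_gap {c : ℕ → ℝ} (hc0 : Filter.Tendsto c Filter.atTop (nhds 0)) {n0 : ℕ}
    (hn0 : 0 < c n0) : ∃ s g : ℝ, 0 < s ∧ 0 < g ∧ g ≤ s ∧ (∃ n, c n = s) ∧
      ∀ n, c n = s ∨ c n ≤ s - g := by
  classical
  obtain ⟨N, hN⟩ : ∃ N, ∀ n ≥ N, c n < c n0 / 2 := by
    have := (hc0.eventually (gt_mem_nhds (by linarith : (0 : ℝ) < c n0 / 2)))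
    exact Filter.eventually_atTop.1 this
  have hn0N : n0 < N := by
    by_contra h
    push Not at h
    have := hN n0 h
    linarith
  obtain ⟨m, hm, hmax⟩ := (Finset.range N).exists_max_image c ⟨n0, Finset.mem_range.2 hn0N⟩
  have hms : c n0 ≤ c m := hmax n0 (Finset.mem_range.2 hn0N)
  set B := (Finset.range N).filter (fun n => c n ≠ c m) with hB
  by_cases hBe : B.Nonempty
  · obtain ⟨k, hk, hkmax⟩ := B.exists_max_image c hBe
    have hk1 := Finset.mem_filter.1 hk
    have hkm : c k < c m := lt_of_le_of_ne (hmax k hk1.1) hk1.2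
    refine ⟨c m, min (c m - c k) (c m / 2), by linarith,
      lt_min (by linarith) (by linarith), (min_le_right _ _).trans (by linarith), ⟨m, rfl⟩, ?_⟩
    intro n
    by_cases hn : c n = c m
    · exact Or.inl hn
    right
    by_cases hnN : n < N
    · have h1 := hkmax n (Finset.mem_filter.2 ⟨Finset.mem_range.2 hnN, hn⟩)
      have h2 := min_le_left (c m - c k) (c m / 2)
      linarith
    · push Not at hnN
      have h1 := hN n hnN
      have h2 := min_le_right (c m - c k) (c m / 2)
      linarith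
  · refine ⟨c m, c m / 2, by linarith, by linarith, by linarith, ⟨m, rfl⟩, ?_⟩
    intro n
    by_cases hn : c n = c m
    · exact Or.inl hn
    right
    have hnN : N ≤ n := by
      by_contra hlt
      push Not at hlt
      exact hBe ⟨n, Finset.mem_filter.2 ⟨Finset.mem_range.2 hlt, hn⟩⟩
    have h1 := hN n hnN
    linarith

/-- The vertices `± eₙ / (n + 1)`. -/
def vert (e : ℕ → H) : Set H :=
  (range fun n : ℕ => (1 / ((n : ℝ) + 1)) • e n) ∪ (range fun n : ℕ => -((1 / ((n : ℝ) + 1)) • e n))

lemma norm_vert_term {e : ℕ → H} (he : Orthonormal ℝ e) (n : ℕ) :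
    ‖(1 / ((n : ℝ) + 1)) • e n‖ = 1 / ((n : ℝ) + 1) := by
  rw [norm_smul, he.1 n, mul_one, Real.norm_of_nonneg (by positivity)]

lemma norm_vert_le {e : ℕ → H} (he : Orthonormal ℝ e) : ∀ y ∈ vert e, ‖y‖ ≤ 1 := by
  have h : ∀ n : ℕ, 1 / ((n : ℝ) + 1) ≤ 1 := fun n => by
    rw [div_le_one (by positivity)]; linarith [(Nat.cast_nonneg n : (0 : ℝ) ≤ n)]
  rintro y (⟨n, rfl⟩ | ⟨n, rfl⟩)
  · show ‖(1 / ((n : ℝ) + 1)) • e n‖ ≤ 1
    rw [norm_vert_term he]; exact h n
  · show ‖-((1 / ((n : ℝ) + 1)) • e n)‖ ≤ 1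
    rw [norm_neg, norm_vert_term he]; exact h n

lemma tendsto_vert {e : ℕ → H} (he : Orthonormal ℝ e) :
    Filter.Tendsto (fun n : ℕ => (1 / ((n : ℝ) + 1)) • e n) Filter.atTop (nhds 0) := by
  rw [tendsto_zero_iff_norm_tendsto_zero]
  simp_rw [norm_vert_term he]
  exact tendsto_one_div_add_atTop_nhds_zero_nat

/-- The set `{± eₙ/(n+1)}` has a compact closed convex hull. -/
lemma isCompact_hull [CompleteSpace H] {e : ℕ → H} (he : Orthonormal ℝ e) :
    IsCompact (closure (convexHull ℝ (vert e))) := by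
  have h1 := (tendsto_vert he).isCompact_insert_range
  have h2 : IsCompact (insert (-(0 : H)) (range fun n : ℕ => -((1 / ((n : ℝ) + 1)) • e n))) :=
    (tendsto_vert he).neg.isCompact_insert_range
  have h3 : TotallyBounded (vert e) :=
    (h1.union h2).totallyBounded.subset
      (union_subset_union (subset_insert _ _) (subset_insert _ _))
  exact isCompact_iff_totallyBounded_isComplete.2
    ⟨(totallyBounded_convexHull.2 h3).closure, isClosed_closure.isComplete⟩

lemma pointwiseSharp_hull {e : ℕ → H} (he : Orthonormal ℝ e) :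
    PointwiseSharp (closure (convexHull ℝ (vert e))) := by
  intro u _
  set c : ℕ → ℝ := fun n => |inner ℝ ((1 / ((n : ℝ) + 1)) • e n) u| with hc
  have hc0 : Filter.Tendsto c Filter.atTop (nhds 0) := by
    have h1 : Filter.Tendsto (fun n : ℕ => inner ℝ ((1 / ((n : ℝ) + 1)) • e n) u)
        Filter.atTop (nhds (inner ℝ (0 : H) u)) := (tendsto_vert he).inner tendsto_const_nhds
    rw [inner_zero_left] at h1
    have := h1.abs
    rwa [abs_zero] at this
  have hcn : ∀ n, 0 ≤ c n := fun n => abs_nonneg _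
  -- values on the vertices are `± c n`
  have hval : ∀ y ∈ vert e, ∃ n, inner ℝ y u = c n ∨ inner ℝ y u = - c n := by
    rintro y (⟨n, rfl⟩ | ⟨n, rfl⟩)
    · refine ⟨n, ?_⟩
      show inner ℝ ((1 / ((n : ℝ) + 1)) • e n) u = c n ∨
        inner ℝ ((1 / ((n : ℝ) + 1)) • e n) u = - c n
      rcases abs_choice (inner ℝ ((1 / ((n : ℝ) + 1)) • e n) u) with h | h
      · left; rw [hc]; exact h.symm
      · right; rw [hc]; show _ = - |_|; rw [h, neg_neg]
    · refine ⟨n, ?_⟩
      show inner ℝ (-((1 / ((n : ℝ) + 1)) • e n)) u = c n ∨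
        inner ℝ (-((1 / ((n : ℝ) + 1)) • e n)) u = - c n
      rw [inner_neg_left]
      rcases abs_choice (inner ℝ ((1 / ((n : ℝ) + 1)) • e n) u) with h | h
      · right; rw [hc]; show _ = - |_|; rw [h]
      · left; rw [hc]; exact h.symm
  have hattain : ∀ n, ∃ y ∈ vert e, inner ℝ y u = c n := by
    intro n
    rcases abs_choice (inner ℝ ((1 / ((n : ℝ) + 1)) • e n) u) with h | h
    · exact ⟨_, Or.inl ⟨n, rfl⟩, h.symm⟩
    · refine ⟨_, Or.inr ⟨n, rfl⟩, ?_⟩
      rw [inner_neg_left]; exact h.symm
  by_cases hall : ∀ n, c n = 0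
  · refine ⟨1 / 4, by norm_num, ?_⟩
    rw [sharpAt_iff]
    intro x hx v hv hlt
    refine sharp_of_gap (s := 0) (g := 1) (norm_vert_le he) one_pos ?_ ?_ hx hv (by simpa using hlt)
    · obtain ⟨y, hy, h⟩ := hattain 0
      exact ⟨y, hy, by rw [h, hall 0]⟩
    · intro y hy
      obtain ⟨n, h | h⟩ := hval y hy
      · left; rw [h, hall n]
      · left; rw [h, hall n, neg_zero]
  · push Not at hall
    obtain ⟨n0, hn0⟩ := hall
    obtain ⟨s, g, hs, hg, hgs, ⟨m, hm⟩, hgap⟩ :=
      exists_gap hc0 (lt_of_le_of_ne (hcn n0) (Ne.symm hn0))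
    refine ⟨g / 4, by positivity, ?_⟩
    rw [sharpAt_iff]
    intro x hx v hv hlt
    refine sharp_of_gap (s := s) (norm_vert_le he) hg ?_ ?_ hx hv hlt
    · obtain ⟨y, hy, h⟩ := hattain m
      exact ⟨y, hy, by rw [h, hm]⟩
    · intro y hy
      obtain ⟨n, h | h⟩ := hval y hy
      · rw [h]; exact hgap n
      · right; rw [h]; linarith [hcn n]

/-- There is an orthonormal sequence in every infinite-dimensional Hilbert space. -/
lemma exists_orthonormal_seq [CompleteSpace H] (hinf : ¬ FiniteDimensional ℝ H) :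
    ∃ e : ℕ → H, Orthonormal ℝ e := by
  obtain ⟨w, b, hb⟩ := exists_hilbertBasis ℝ H
  have hw : Infinite w := by
    by_contra hfin
    rw [not_infinite_iff_finite] at hfin
    apply hinf
    have h1 := b.dense_span
    have h2 : FiniteDimensional ℝ (Submodule.span ℝ (range b)) :=
      FiniteDimensional.span_of_finite ℝ (finite_range b)
    rw [(Submodule.closed_of_finiteDimensional (Submodule.span ℝ
      (range b))).submodule_topologicalClosure_eq] at h1
    rw [h1] at h2
    exact Module.Finite.equiv (Submodule.topEquiv (R := ℝ) (M := H))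
  exact ⟨fun n => b (Infinite.natEmbedding w n),
    b.orthonormal.comp _ (Infinite.natEmbedding w).injective⟩

lemma not_generalized_polyhedral {e : ℕ → H} (he : Orthonormal ℝ e)
    (hb : Bornology.IsBounded (closure (convexHull ℝ (vert e)))) (M : AffineSubspace ℝ H) (P : Set H)
    (hP : Polyhedral P) : closure (convexHull ℝ (vert e)) ≠ (M : Set H) ∩ P := by
  intro hA
  obtain ⟨m, _, a, b, rfl⟩ := hP
  have hKA : vert e ⊆ closure (convexHull ℝ (vert e)) :=
    (subset_convexHull ℝ _).trans subset_closure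
  have hfd : FiniteDimensional ℝ M.direction :=
    finiteDimensional_direction_of_bounded (a := a) (b := b)
      (A := closure (convexHull ℝ (vert e))) ⟨_, hKA (Or.inl ⟨0, rfl⟩)⟩ hb (by
        rw [hA]; ext x; simp)
  have hmem : ∀ n, e n ∈ M.direction := by
    intro n
    have h1 : (1 / ((n : ℝ) + 1)) • e n ∈ M := by
      have := hKA (Or.inl ⟨n, rfl⟩)
      rw [hA] at this
      exact this.1
    have h2 : -((1 / ((n : ℝ) + 1)) • e n) ∈ M := by
      have := hKA (Or.inr ⟨n, rfl⟩)
      rw [hA] at this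
      exact this.1
    have h3 := AffineSubspace.vsub_mem_direction h1 h2
    have h4 := M.direction.smul_mem (((n : ℝ) + 1) / 2) h3
    have h5 : (((n : ℝ) + 1) / 2) • ((1 / ((n : ℝ) + 1)) • e n -ᵥ -((1 / ((n : ℝ) + 1)) • e n)) =
        e n := by
      rw [vsub_eq_sub, sub_neg_eq_add, ← two_smul ℝ ((1 / ((n : ℝ) + 1)) • e n), smul_smul,
        smul_smul]
      have : ((n : ℝ) + 1) / 2 * 2 * (1 / ((n : ℝ) + 1)) = 1 := by field_simp
      rw [this, one_smul]
    rwa [h5] at h4
  have hli : LinearIndependent ℝ (fun n => (⟨e n, hmem n⟩ : M.direction)) := by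
    have := he.linearIndependent
    refine LinearIndependent.of_comp M.direction.subtype ?_
    exact this
  exact (not_finite_iff_infinite.2 inferInstance) hli.finite

/-- **Main result.** Let `H` be a real Hilbert space and `A ⊆ H` nonempty, closed and convex.

(1) If `dim H ≥ 2`, then `A` is uniformly sharp (in the sense of the problem file) if and only if
`A` is the whole space or a single point.
(2) If `H` is infinite-dimensional, every single point is uniformly sharp and not polyhedral; so Q1
as stated has a negative answer.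
(3) If `H` is finite-dimensional and for every unit vector `u` there is `α > 0` (which may depend
on `u`) such that `A` is `α`-sharp with respect to `u`, then `A` is polyhedral.
(4) In every infinite-dimensional `H` there is a nonempty compact convex `A` which is sharp with
respect to every unit vector (with `α` depending on the vector) and which is not the intersection
of any affine subspace with any polyhedral set. -/
theorem result :
    (∀ (H : Type u) [NormedAddCommGroup H] [InnerProductSpace ℝ H] [CompleteSpace H],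
      (1 < Module.rank ℝ H → ∀ A : Set H, A.Nonempty → IsClosed A → Convex ℝ A →
        (UniformlySharp A ↔ (A = univ ∨ ∃ x, A = {x}))) ∧
      (¬ FiniteDimensional ℝ H → ∀ x : H, UniformlySharp ({x} : Set H) ∧
        ¬ Polyhedral ({x} : Set H)) ∧
      (FiniteDimensional ℝ H → ∀ A : Set H, A.Nonempty → IsClosed A → Convex ℝ A →
        (PointwiseSharp A → Polyhedral A)) ∧
      (¬ FiniteDimensional ℝ H → ∃ A : Set H, A.Nonempty ∧ IsCompact A ∧ Convex ℝ A ∧
        PointwiseSharp A ∧ ¬ Polyhedral A ∧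
        ∀ (M : AffineSubspace ℝ H) (P : Set H), Polyhedral P → A ≠ (M : Set H) ∩ P)) := by
  intro H _ _ _
  refine ⟨?_, ?_, ?_, ?_⟩
  · intro hdim A hne hc hA
    exact uniform_classification hdim hne hc hA
  · intro hinf x
    exact ⟨uniformlySharp_singleton x,
      not_polyhedral_of_bounded hinf (singleton_nonempty x) Bornology.isBounded_singleton⟩
  · intro hfin A hne hc hA hS
    exact polyhedral_of_pSharp hne hc hA (pSharp_of_pointwise hS)
  · intro hinf
    obtain ⟨e, he⟩ := exists_orthonormal_seq hinf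
    have hcomp := isCompact_hull he
    have hne : (closure (convexHull ℝ (vert e))).Nonempty :=
      ⟨_, ((subset_convexHull ℝ _).trans subset_closure) (Or.inl ⟨0, rfl⟩)⟩
    exact ⟨_, hne, hcomp, (convex_convexHull ℝ _).closure, pointwiseSharp_hull he,
      not_polyhedral_of_bounded hinf hne hcomp.isBounded,
      fun M P hP => not_generalized_polyhedral he hcomp.isBounded M P hP⟩

end Pool.Agent.Results.MP_c48ca6_an.SharpSets
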